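import Mathlib

/-!
# Motives of elementary abelian 2-coverings of the plane: definitions
-/

set_option autoImplicit false

namespace Pool.Agent.Q63.KU

open CategoryTheory

/-- A property of motives which holds for every direct summand of a finite direct sum of motives
which have the property. -/
def SummandClosed {𝒞 : Type} [Category.{0} 𝒞] [Preadditive 𝒞] (P : 𝒞 → Prop) : Prop :=
  ∀ (n : ℕ) (Q : Fin n → 𝒞) (M : 𝒞) (i : ∀ a, M ⟶ Q a) (q : ∀ a, Q a ⟶ M),
    (∀ a, P (Q a)) → ∑ a, i a ≫ q a = 𝟙 M → P M

/-- The number of the branch lines `D_i`, with monodromy `g i`, which belong to the double plane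
`X / ker a`. -/
def nl {k s : ℕ} (g : Fin s → Fin k → ZMod 2) (a : Fin k → ZMod 2) : ℕ :=
  (Finset.univ.filter fun i => ∑ j, a j * g i j ≠ 0).card

/-- `X` is a (desingularised) covering of the complex projective plane with the group `G = (ℤ/2)^k`, branched over
`s` lines in general position with the local monodromies `g i` in `G`; `M` is the Chow motive `h(X)` (`𝒞` is
the category of Chow motives), `ρ` is the action of `G` on it, `Q a` is the motive of the
surface `X / ker a`, `push a` and `pull a` are the push-forward (divided by the order of `ker a`) and the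
pull-back. -/
structure CoverMotive {𝒞 : Type} [Category.{0} 𝒞] [Preadditive 𝒞] [Linear ℚ 𝒞] {k s : ℕ}
    (g : Fin s → Fin k → ZMod 2) (P : 𝒞 → Prop) (M : 𝒞)
    (ρ : Multiplicative (Fin k → ZMod 2) →* End M) (Q : (Fin k → ZMod 2) → 𝒞)
    (push : ∀ a, M ⟶ Q a) (pull : ∀ a, Q a ⟶ M) : Prop where
  /-- pull-back after push-forward is the average over `ker a` -/
  average : ∀ a, push a ≫ pull a = ((Fintype.card {h : Fin k → ZMod 2 // ∑ i, a i * h i = 0} : ℚ))⁻¹ •
    ∑ h : {h : Fin k → ZMod 2 // ∑ i, a i * h i = 0}, (ρ (Multiplicative.ofAdd h.1) : M ⟶ M)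
  /-- double planes branched over at most six lines have the property: they are rational, or
  K3 surfaces dominated by products of curves (Paranjape) -/
  known : ∀ a, nl g a ≤ 6 → P (Q a)

end Pool.Agent.Q63.KU
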