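import Mathlib

/-!
# Complete intersections of diagonal hypersurfaces as Kummer coverings of the plane: definitions
-/

set_option autoImplicit false

namespace Pool.Agent.Q63.KU

/-- For residues `b 0, …, b (r-1)` modulo `m` with sum zero: the sum of their representatives in
`{0, …, m-1}`, divided by `m`. -/
def deg (m r : ℕ) (b : Fin r → ZMod m) : ℕ := (∑ i, (b i).val) / m

/-- The geometric genus of the cyclic covering of the projective plane branched over `r` lines in general
position with the exponents `a` (the normalisation of `w ^ m = ∏ l_i ^ (a i)`): the sum of
`(deg b - 1) * (deg b - 2) / 2` over the multiples `b` of `a`. -/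
def geomGenus (m r : ℕ) (a : Fin r → ZMod m) : ℕ :=
  ∑ b ∈ (Finset.range m).image (fun t : ℕ => fun i => (t : ZMod m) * a i), (deg m r b - 1).choose 2

end Pool.Agent.Q63.KU
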