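import Mathlib
import Pool.Agent.Q63.KU.Defs

/-!
# Tate classes on complete intersections of diagonal hypersurfaces: definitions
-/

set_option autoImplicit false

namespace Pool.Agent.Q63.KU

/-- The pairs (degree, number of variables) for the complete intersections of dimension two of four
diagonal quadrics in `P^6`, of two diagonal cubics in `P^4` and of two diagonal quartics in `P^4`. -/
def KTypes (m r : ℕ) : Prop := (m = 2 ∧ r = 7) ∨ (m = 3 ∧ r = 5) ∨ (m = 4 ∧ r = 5)

/-- `X` is a smooth complete intersection of `r - 3` hypersurfaces `∑ c_i x_i ^ m = 0` in `P^(r-1)` over a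
finitely generated field, with Galois group `Γ`. `V` is `H^2(X, F(1))`, `F` the algebraic closure of
`ℚ_ℓ`, with the actions `ρ` of the group `(μ_m)^r = (ℤ/m)^r` on `X`, and `γ` of `Γ`; `A` is the span of
the classes of divisors. For a character `a` of `(ℤ/m)^r/(ℤ/m)` let `N_a` be its kernel. The surface
`X/N_a` is the cyclic covering of the plane with the exponents `a`; its second cohomology, up to
the classes of exceptional curves, consists of the invariants of `N_a` in `V`. -/
structure TateData {F V Γ : Type} [Field F] [AddCommGroup V] [Module F V] [Group Γ] (m r : ℕ)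
    (ρ : Representation F (Multiplicative (Fin r → ZMod m)) V) (γ : Representation F Γ V)
    (A : Submodule F V) : Prop where
  /-- the diagonal acts trivially -/
  diag : ∀ (c : ZMod m) (v : V), ρ (Multiplicative.ofAdd fun _ => c) v = v
  /-- the group acts by automorphisms over the base field -/
  comm : ∀ g s v, ρ g (γ s v) = γ s (ρ g v)
  /-- the Tate conjecture for the surfaces `X/N_a` of geometric genus at most one (which are
  rational surfaces and K3 surfaces) -/
  known : ∀ a : Fin r → ZMod m, ∑ i, a i = 0 → geomGenus m r a ≤ 1 → ∀ v, (∀ s, γ s v = v) →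
    (∀ h : Fin r → ZMod m, ∑ i, a i * h i = 0 → ρ (Multiplicative.ofAdd h) v = v) → v ∈ A

end Pool.Agent.Q63.KU
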