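import Mathlib
import Pool.Agent.Q63.KU.TateDefs

/-! Decomposition of a representation of `(ℤ/m)^r` into characters. -/

set_option autoImplicit false

namespace Pool.Agent.Q63.KU

open Multiplicative

variable {F V : Type} [Field F] [IsAlgClosed F] [CharZero F] [AddCommGroup V] [Module F V]
  {m r : ℕ} [NeZero m]

lemma exists_char (F : Type) [Field F] [IsAlgClosed F] [CharZero F] (m : ℕ) [NeZero m] :
    ∃ ψ : AddChar (ZMod m) F, ψ.IsPrimitive := by
  have hm : ((m : ℕ) : F) ≠ 0 := by exact_mod_cast NeZero.ne m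
  have : NeZero (m : F) := ⟨hm⟩
  obtain ⟨ζ, hζ⟩ := HasEnoughRootsOfUnity.exists_primitiveRoot F m
  exact ⟨AddChar.zmodChar m hζ.pow_eq_one, AddChar.zmodChar_primitive_of_primitive_root m hζ⟩

lemma prim_inj {ψ : AddChar (ZMod m) F} (hψ : ψ.IsPrimitive) {x : ZMod m} (hx : ψ x = 1) :
    x = 0 := by
  by_contra h
  have h1 := hψ h
  apply h1
  ext y
  rw [AddChar.mulShift_apply]
  have hy : x * y = (y.val : ℕ) • x := by
    rw [nsmul_eq_mul, ZMod.natCast_zmod_val, mul_comm]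
  rw [hy, AddChar.map_nsmul_eq_pow, hx, one_pow]
  rfl

lemma sum_char {ψ : AddChar (ZMod m) F} (hψ : ψ.IsPrimitive) (g : Fin r → ZMod m) :
    ∑ a : Fin r → ZMod m, ψ (-∑ i, a i * g i) = if g = 0 then (m : F) ^ r else 0 := by
  have h1 : ∀ a : Fin r → ZMod m, ψ (-∑ i, a i * g i) = ∏ i, ψ (a i * -g i) := by
    intro a
    have h2 : ∀ (s : Finset (Fin r)) (f : Fin r → ZMod m), ψ (∑ i ∈ s, f i) = ∏ i ∈ s, ψ (f i) := by
      intro s f
      classical
      induction s using Finset.induction_on with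
      | empty => simp
      | insert i s hi ih =>
        rw [Finset.sum_insert hi, Finset.prod_insert hi, AddChar.map_add_eq_mul, ih]
    rw [← h2]
    congr 1
    rw [← Finset.sum_neg_distrib]
    exact Finset.sum_congr rfl fun i _ => by ring
  simp_rw [h1]
  rw [← Fintype.piFinset_univ,
    ← Finset.prod_univ_sum (fun _ : Fin r => (Finset.univ : Finset (ZMod m)))
      (fun i x => ψ (x * -g i))]
  simp_rw [AddChar.sum_mulShift _ hψ]
  by_cases hg : g = 0
  · subst hg
    simp [ZMod.card]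
  · rw [if_neg hg]
    obtain ⟨i, hi⟩ := Function.ne_iff.1 hg
    refine Finset.prod_eq_zero (Finset.mem_univ i) ?_
    rw [if_neg (by simpa using hi)]
    simp

/-- the component of `u` for the character `a` -/
noncomputable def comp (ρ : Representation F (Multiplicative (Fin r → ZMod m)) V)
    (ψ : AddChar (ZMod m) F) (u : V) (a : Fin r → ZMod m) : V :=
  ((m : F) ^ r)⁻¹ • ∑ g : Fin r → ZMod m, ψ (-∑ i, a i * g i) • ρ (ofAdd g) u

variable {ρ : Representation F (Multiplicative (Fin r → ZMod m)) V} {ψ : AddChar (ZMod m) F}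

lemma sum_comp (hψ : ψ.IsPrimitive) (u : V) : ∑ a, comp ρ ψ u a = u := by
  have hm : ((m : F) ^ r) ≠ 0 := pow_ne_zero _ (by exact_mod_cast NeZero.ne m)
  unfold comp
  rw [← Finset.smul_sum, Finset.sum_comm]
  simp_rw [← Finset.sum_smul, sum_char hψ, ite_smul, zero_smul]
  rw [Finset.sum_ite_eq' Finset.univ (0 : Fin r → ZMod m), if_pos (Finset.mem_univ _), smul_smul,
    inv_mul_cancel₀ hm, one_smul]
  have : ofAdd (0 : Fin r → ZMod m) = 1 := rfl
  rw [this, map_one]
  rfl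

lemma act_comp (u : V) (a h : Fin r → ZMod m) :
    ρ (ofAdd h) (comp ρ ψ u a) = ψ (∑ i, a i * h i) • comp ρ ψ u a := by
  have key : ρ (ofAdd h) (∑ g : Fin r → ZMod m, ψ (-∑ i, a i * g i) • ρ (ofAdd g) u) =
      ψ (∑ i, a i * h i) • ∑ g : Fin r → ZMod m, ψ (-∑ i, a i * g i) • ρ (ofAdd g) u := by
    rw [map_sum, Finset.smul_sum]
    refine Fintype.sum_equiv (Equiv.addLeft h) _ _ fun g => ?_
    have h1 : ρ (ofAdd h) (ρ (ofAdd g) u) = ρ (ofAdd (h + g)) u := by
      rw [← Module.End.mul_apply, ← map_mul]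
      rfl
    rw [map_smul, h1, Equiv.coe_addLeft, smul_smul, ← AddChar.map_add_eq_mul]
    congr 2
    have : ∑ i, a i * (h + g) i = ∑ i, a i * h i + ∑ i, a i * g i := by
      rw [← Finset.sum_add_distrib]
      exact Finset.sum_congr rfl fun i _ => by rw [Pi.add_apply, mul_add]
    rw [this]
    ring
  unfold comp
  rw [map_smul, key, smul_comm]

/-- the component lies in every subspace stable under the group which contains the vector -/
lemma comp_mem {U : Submodule F V} (hU : ∀ g, ∀ u ∈ U, ρ g u ∈ U) {u : V} (hu : u ∈ U)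
    (a : Fin r → ZMod m) : comp ρ ψ u a ∈ U :=
  U.smul_mem _ (U.sum_mem fun _ _ => U.smul_mem _ (hU _ _ hu))

/-- If the diagonal acts trivially, only the characters with sum zero occur. -/
lemma comp_eq_zero (hψ : ψ.IsPrimitive) (hd : ∀ (c : ZMod m) (v : V), ρ (ofAdd fun _ => c) v = v)
    (u : V) {a : Fin r → ZMod m} (ha : ∑ i, a i ≠ 0) : comp ρ ψ u a = 0 := by
  have h1 := act_comp (ρ := ρ) (ψ := ψ) u a (fun _ => 1)
  rw [hd] at h1
  simp only [mul_one] at h1
  by_contra h0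
  have h2 : (1 - ψ (∑ i, a i)) • comp ρ ψ u a = 0 := by
    rw [sub_smul, one_smul, ← h1, sub_self]
  rcases smul_eq_zero.1 h2 with h3 | h3
  · exact ha (prim_inj hψ (by linear_combination -h3))
  · exact h0 h3

/-- the general principle -/
theorem le_of_kernels (hd : ∀ (c : ZMod m) (v : V), ρ (ofAdd fun _ => c) v = v)
    {U A : Submodule F V} (hU : ∀ g, ∀ u ∈ U, ρ g u ∈ U)
    (hA : ∀ a : Fin r → ZMod m, ∑ i, a i = 0 → ∀ v ∈ U,
      (∀ h : Fin r → ZMod m, ∑ i, a i * h i = 0 → ρ (ofAdd h) v = v) → v ∈ A) : U ≤ A := by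
  intro u hu
  obtain ⟨ψ, hψ⟩ := exists_char F m
  rw [← sum_comp (ρ := ρ) hψ u]
  refine A.sum_mem fun a _ => ?_
  by_cases ha : ∑ i, a i = 0
  · refine hA a ha _ (comp_mem hU hu a) fun h hh => ?_
    rw [act_comp, hh, AddChar.map_zero_eq_one, one_smul]
  · rw [comp_eq_zero hψ hd u ha]
    exact A.zero_mem

theorem t27 : ∀ a : Fin 7 → ZMod 2, ∑ i, a i = 0 → geomGenus 2 7 a ≤ 1 := by decide +kernel

theorem t35 : ∀ a : Fin 5 → ZMod 3, ∑ i, a i = 0 → geomGenus 3 5 a ≤ 1 := by decide +kernel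

theorem t45 : ∀ a : Fin 5 → ZMod 4, ∑ i, a i = 0 → geomGenus 4 5 a ≤ 1 := by decide +kernel

theorem genus_le {m r : ℕ} (h : KTypes m r) (a : Fin r → ZMod m) (ha : ∑ i, a i = 0) :
    geomGenus m r a ≤ 1 := by
  rcases h with ⟨rfl, rfl⟩ | ⟨rfl, rfl⟩ | ⟨rfl, rfl⟩
  · exact t27 a ha
  · exact t35 a ha
  · exact t45 a ha

end Pool.Agent.Q63.KU

namespace Pool.Agent.Q63.KU

open Multiplicative

/-- the general principle, without a diagonal -/
theorem le_of_kernels' {F V : Type} [Field F] [IsAlgClosed F] [CharZero F] [AddCommGroup V]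
    [Module F V] {m r : ℕ} [NeZero m] {ρ : Representation F (Multiplicative (Fin r → ZMod m)) V}
    {U A : Submodule F V} (hU : ∀ g, ∀ u ∈ U, ρ g u ∈ U)
    (hA : ∀ a : Fin r → ZMod m, ∀ v ∈ U,
      (∀ h : Fin r → ZMod m, ∑ i, a i * h i = 0 → ρ (ofAdd h) v = v) → v ∈ A) : U ≤ A := by
  intro u hu
  obtain ⟨ψ, hψ⟩ := exists_char F m
  rw [← sum_comp (ρ := ρ) hψ u]
  refine A.sum_mem fun a _ => ?_
  refine hA a _ (comp_mem hU hu a) fun h hh => ?_
  rw [act_comp, hh, AddChar.map_zero_eq_one, one_smul]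

end Pool.Agent.Q63.KU
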