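import Mathlib

/-!
# Abelian coverings of the plane and of the quadric surface: definitions
-/

set_option autoImplicit false

namespace Pool.Agent.Q63.KU

/-- The data of an abelian covering `X` of the plane with the group `G = (ℤ/m)^k`: branch curves `D_i` of
degrees `d i`, with the elements `g i` of `G` (local monodromies). For a character `a` of `G` the eigensheaf
is `O(-dg a)`: `dg a` is the sum of the numbers `d i * ⟨a, g i⟩`, divided by `m`, where `⟨a, g i⟩` in
`{0, …, m-1}` is the value of `a` at `g i`. -/
def dg (m : ℕ) {k s : ℕ} (g : Fin s → Fin k → ZMod m) (d : Fin s → ℕ) (a : Fin k → ZMod m) : ℕ :=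
  (∑ i, d i * (∑ j, a j * g i j).val) / m

/-- The geometric genus of the cyclic covering `X / ker a` of the plane: the sum of
`(dg b - 1) (dg b - 2) / 2` over the multiples `b` of the character `a`. -/
def pg (m : ℕ) {k s : ℕ} (g : Fin s → Fin k → ZMod m) (d : Fin s → ℕ) (a : Fin k → ZMod m) : ℕ :=
  ∑ b ∈ (Finset.range m).image (fun t : ℕ => fun i => (t : ZMod m) * a i), (dg m g d b - 1).choose 2

/-- `X` is a smooth covering of the projective plane with the group `(ℤ/m)^k`, `m = 2` or `m = 3`, and with
normal crossing branch curves, over a finite field of characteristic prime to `m`; `V` is `H^2(X, F)`,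
`F` the algebraic closure of `ℚ_ℓ`, with the action `ρ` of the group, and `φ` is the Frobenius. -/
structure FrobData {F V : Type} [Field F] [AddCommGroup V] [Module F V] (m : ℕ) {k s : ℕ}
    (g : Fin s → Fin k → ZMod m) (d : Fin s → ℕ)
    (ρ : Representation F (Multiplicative (Fin k → ZMod m)) V) (φ : V →ₗ[F] V) : Prop where
  /-- Frobenius is semisimple on `H^2` of the surfaces `X / ker a` of geometric genus at most one,
  which are rational or K3 surfaces (Deligne) -/
  known : ∀ a : Fin k → ZMod m, pg m g d a ≤ 1 → ∀ v,
    (∀ h : Fin k → ZMod m, ∑ i, a i * h i = 0 → ρ (Multiplicative.ofAdd h) v = v) →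
    v ∈ ⨆ μ : F, Module.End.eigenspace φ μ

/-- `X` is a smooth covering of the projective plane with the group `(ℤ/m)^k`, `m = 2` or `m = 3`, and with
normal crossing branch curves, over a finite field of characteristic prime to `m`; `V` is the Tate
module of the Brauer group of `X` over the algebraic closure, tensored with the algebraic
closure `F` of `ℚ_ℓ`, with the action `ρ` of the group, and the action `γ` of the Galois group. -/
structure BrauerData {F V Γ : Type} [Field F] [AddCommGroup V] [Module F V] [Group Γ] (m : ℕ)
    {k s : ℕ} (g : Fin s → Fin k → ZMod m) (d : Fin s → ℕ)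
    (ρ : Representation F (Multiplicative (Fin k → ZMod m)) V) (γ : Representation F Γ V) :
    Prop where
  /-- the group acts by automorphisms over the base field -/
  comm : ∀ x s v, ρ x (γ s v) = γ s (ρ x v)
  /-- the Brauer groups of the surfaces `X / ker a` of geometric genus at most one, which are
  rational or K3 surfaces, are finite -/
  known : ∀ a : Fin k → ZMod m, pg m g d a ≤ 1 → ∀ v, (∀ s, γ s v = v) →
    (∀ h : Fin k → ZMod m, ∑ i, a i * h i = 0 → ρ (Multiplicative.ofAdd h) v = v) → v = 0

/-- The sum of the degrees `d i` of the branch curves `D_i` which belong to the double covering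
`X / ker a`. -/
def wt {k s : ℕ} (g : Fin s → Fin k → ZMod 2) (d : Fin s → ℕ) (a : Fin k → ZMod 2) : ℕ :=
  ∑ i, if ∑ j, a j * g i j = 0 then 0 else d i

/-- `X` is a smooth covering of `P^1 × P^1` with the group `(ℤ/2)^k`, and with normal crossing branch curves
of bidegrees `(d i, e i)`, over a finite field of odd characteristic; `V` is `H^2(X, F(1))`, `F` the algebraic closure of
`ℚ_ℓ`, with the action `ρ` of the group and the Frobenius `φ`; `A` is the span of the classes of
divisors over the finite field. -/
structure QuadricData {F V : Type} [Field F] [AddCommGroup V] [Module F V] {k s : ℕ}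
    (g : Fin s → Fin k → ZMod 2) (d e : Fin s → ℕ)
    (ρ : Representation F (Multiplicative (Fin k → ZMod 2)) V) (φ : V →ₗ[F] V)
    (A : Submodule F V) : Prop where
  /-- the group acts by automorphisms over the base field -/
  comm : ∀ x v, ρ x (φ v) = φ (ρ x v)
  /-- classes of divisors are invariant -/
  fixed : ∀ v ∈ A, φ v = v
  /-- the Tate conjecture, with the semisimplicity, for the surfaces `X / ker a` with branch curves of
  bidegree `(x, y)`, `x ≤ 2` or `y ≤ 2` (ruled surfaces), or `x = y = 4` (K3 surfaces) -/
  known : ∀ a : Fin k → ZMod 2, wt g d a ≤ 2 ∨ wt g e a ≤ 2 ∨ (wt g d a = 4 ∧ wt g e a = 4) →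
    ∀ v, (∃ n : ℕ, ((φ - 1) ^ n) v = 0) →
    (∀ h : Fin k → ZMod 2, ∑ i, a i * h i = 0 → ρ (Multiplicative.ofAdd h) v = v) → v ∈ A

end Pool.Agent.Q63.KU
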