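import Mathlib
import Pool.Agent.Q63.KU.TateDefs

/-!
# The Mumford-Tate conjecture for complete intersections of diagonal hypersurfaces: definitions
-/

set_option autoImplicit false

namespace Pool.Agent.Q63.KU

/-- `X` is a smooth complete intersection of `r - 3` hypersurfaces `∑ c_i x_i ^ m = 0` in `P^(r-1)` over a
finitely generated field of characteristic zero. `V = H^2(X, F(1))`, `F` the algebraic closure of `ℚ_ℓ`,
with the action `ρ` of the group `(ℤ/m)^r` on `X`. `M` is the group of the points over `F` of the
Mumford-Tate group of `H^2(X, ℚ(1))`, and `L` the group of the points over `F` of the (connected)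
algebraic monodromy group of the Galois representation on `H^2(X, ℚ_ℓ(1))`. For a character `a` of
`(ℤ/m)^r/(ℤ/m)` with kernel `N_a` the cohomology of the surface `X/N_a` is, up to algebraic
classes, the space of the `N_a`-invariants in `V`. -/
structure MTData {F V : Type} [Field F] [AddCommGroup V] [Module F V] (m r : ℕ)
    (ρ : Representation F (Multiplicative (Fin r → ZMod m)) V) (M L : Subgroup (V ≃ₗ[F] V)) :
    Prop where
  /-- the diagonal acts trivially -/
  diag : ∀ (c : ZMod m) (v : V), ρ (Multiplicative.ofAdd fun _ => c) v = v
  /-- the Mumford-Tate conjecture for the product of the surfaces `X/N_a` of geometric genus at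
  most one (rational and K3 surfaces): the restrictions of `M` and `L` to the direct sum of the
  spaces of the `N_a`-invariants are the same group -/
  known : ∀ (P Q : Subgroup (V ≃ₗ[F] V)), (P = M ∧ Q = L) ∨ (P = L ∧ Q = M) → ∀ g ∈ P, ∃ g' ∈ Q,
    ∀ a : Fin r → ZMod m, ∑ i, a i = 0 → geomGenus m r a ≤ 1 → ∀ v,
      (∀ h : Fin r → ZMod m, ∑ i, a i * h i = 0 → ρ (Multiplicative.ofAdd h) v = v) → g v = g' v

end Pool.Agent.Q63.KU
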