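import Mathlib
import Pool.Agent.Q63.KU.MotDefs

set_option autoImplicit false

namespace Pool.Agent.Q63.KU

open CategoryTheory Multiplicative

variable {k : ℕ}

/-- the sign of an element for a character -/
def sg (a h : Fin k → ZMod 2) : ℚ := if ∑ i, a i * h i = 0 then 1 else -1

lemma sg_eq_prod (a h : Fin k → ZMod 2) : sg a h = ∏ i, (if a i * h i = 0 then (1 : ℚ) else -1) := by
  unfold sg
  have : ∀ (s : Finset (Fin k)), (if ∑ i ∈ s, a i * h i = 0 then (1 : ℚ) else -1) =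
      ∏ i ∈ s, (if a i * h i = 0 then (1 : ℚ) else -1) := by
    intro s
    classical
    induction s using Finset.induction_on with
    | empty => simp
    | insert i s hi ih =>
      rw [Finset.sum_insert hi, Finset.prod_insert hi, ← ih]
      generalize a i * h i = x
      generalize ∑ j ∈ s, a j * h j = y
      have key : ∀ x y : ZMod 2, (x + y = 0 ↔ (x = 0 ↔ y = 0)) := by decide
      have key' := key x y
      by_cases hx : x = 0 <;> by_cases hy : y = 0 <;> simp_all
  exact this _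

lemma sum_sg (h : Fin k → ZMod 2) : ∑ a : Fin k → ZMod 2, sg a h = if h = 0 then (2 : ℚ) ^ k else 0 := by
  simp_rw [sg_eq_prod]
  rw [← Fintype.piFinset_univ,
    ← Finset.prod_univ_sum (fun _ : Fin k => (Finset.univ : Finset (ZMod 2)))
      (fun i x => if x * h i = 0 then (1 : ℚ) else -1)]
  have hx : ∀ y : ZMod 2, ∑ x : ZMod 2, (if x * y = 0 then (1 : ℚ) else -1) = if y = 0 then 2 else 0 := by
    intro y
    have : ∀ f : ZMod 2 → ℚ, ∑ x : ZMod 2, f x = f 0 + f 1 := fun f => Fin.sum_univ_two f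
    rw [this]
    have e0 : ∀ y : ZMod 2, (0 : ZMod 2) * y = 0 := by decide
    have e1 : ∀ y : ZMod 2, (1 : ZMod 2) * y = y := by decide
    rw [e0, e1, if_pos rfl]
    by_cases hy : y = 0
    · rw [if_pos hy, if_pos hy]; norm_num
    · rw [if_neg hy, if_neg hy]; norm_num
  simp_rw [hx]
  by_cases h0 : h = 0
  · subst h0
    simp
  · rw [if_neg h0]
    obtain ⟨i, hi⟩ := Function.ne_iff.1 h0
    exact Finset.prod_eq_zero (Finset.mem_univ i) (if_neg hi)

variable {𝒞 : Type} [Category.{0} 𝒞] [Preadditive 𝒞] [Linear ℚ 𝒞] {M : 𝒞}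

/-- the projector for the character `a` -/
noncomputable def prj (ρ : Multiplicative (Fin k → ZMod 2) →* End M) (a : Fin k → ZMod 2) : M ⟶ M :=
  ((2 : ℚ) ^ k)⁻¹ • ∑ h : Fin k → ZMod 2, sg a h • (ρ (ofAdd h) : M ⟶ M)

lemma sum_prj (ρ : Multiplicative (Fin k → ZMod 2) →* End M) : ∑ a, prj ρ a = 𝟙 M := by
  unfold prj
  rw [← Finset.smul_sum, Finset.sum_comm]
  simp_rw [← Finset.sum_smul, sum_sg, ite_smul, zero_smul]
  rw [Finset.sum_ite_eq' Finset.univ (0 : Fin k → ZMod 2), if_pos (Finset.mem_univ _), smul_smul,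
    inv_mul_cancel₀ (by positivity), one_smul]
  have : ofAdd (0 : Fin k → ZMod 2) = 1 := rfl
  rw [this, map_one]
  rfl

lemma sg_add (a h h' : Fin k → ZMod 2) (hh : ∑ i, a i * h i = 0) : sg a (h + h') = sg a h' := by
  unfold sg
  have : ∑ i, a i * (h + h') i = ∑ i, a i * h' i := by
    have h1 : ∑ i, a i * (h + h') i = ∑ i, a i * h i + ∑ i, a i * h' i := by
      rw [← Finset.sum_add_distrib]
      exact Finset.sum_congr rfl fun i _ => by rw [Pi.add_apply, mul_add]
    rw [h1, hh, zero_add]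
  rw [this]

lemma ker_prj (ρ : Multiplicative (Fin k → ZMod 2) →* End M) {a h : Fin k → ZMod 2}
    (hh : ∑ i, a i * h i = 0) : (ρ (ofAdd h) : M ⟶ M) ≫ prj ρ a = prj ρ a := by
  unfold prj
  rw [Linear.comp_smul, Preadditive.comp_sum]
  congr 1
  refine Fintype.sum_equiv (Equiv.addLeft h) _ _ fun h' => ?_
  rw [Linear.comp_smul, Equiv.coe_addLeft, sg_add a h h' hh]
  congr 1
  have h1 : ofAdd (h + h') = ofAdd h' * ofAdd h := by
    rw [add_comm]
    rfl
  rw [h1, map_mul]
  rfl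

theorem motive_main {s : ℕ} {g : Fin s → Fin k → ZMod 2} {P : 𝒞 → Prop} (hP : SummandClosed P)
    {ρ : Multiplicative (Fin k → ZMod 2) →* End M} {Q : (Fin k → ZMod 2) → 𝒞}
    {push : ∀ a, M ⟶ Q a} {pull : ∀ a, Q a ⟶ M} (hM : CoverMotive g P M ρ Q push pull)
    (h6 : ∀ a, nl g a ≤ 6) : P M := by
  let e := Fintype.equivFin (Fin k → ZMod 2)
  refine hP _ (fun n => Q (e.symm n)) M (fun n => push (e.symm n))
    (fun n => pull (e.symm n) ≫ prj ρ (e.symm n)) (fun n => hM.known _ (h6 _)) ?_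
  have h1 : ∀ a, push a ≫ pull a ≫ prj ρ a = prj ρ a := by
    intro a
    rw [← Category.assoc, hM.average, Linear.smul_comp, Preadditive.sum_comp]
    have hc : ∀ h : {h : Fin k → ZMod 2 // ∑ i, a i * h i = 0},
        (ρ (ofAdd h.1) : M ⟶ M) ≫ prj ρ a = prj ρ a := fun h => ker_prj ρ h.2
    rw [Finset.sum_congr rfl fun h _ => hc h, Finset.sum_const, Finset.card_univ,
      ← Nat.cast_smul_eq_nsmul ℚ, smul_smul, inv_mul_cancel₀, one_smul]
    have : Nonempty {h : Fin k → ZMod 2 // ∑ i, a i * h i = 0} := ⟨⟨0, by simp⟩⟩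
    exact_mod_cast Fintype.card_ne_zero
  have h2 : ∑ n, push (e.symm n) ≫ pull (e.symm n) ≫ prj ρ (e.symm n) =
      ∑ a, push a ≫ pull a ≫ prj ρ a :=
    Fintype.sum_equiv e.symm _ _ fun _ => rfl
  rw [h2, Finset.sum_congr rfl fun a _ => h1 a]
  exact sum_prj ρ

end Pool.Agent.Q63.KU
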